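import Pool.Agent.H62P.Frame

/-! Absorption of a connected set of uncovered vertices. -/

namespace Pool.Agent.H85P

open List Pool.Agent.TF82 Pool.Agent.TFC Pool.Agent.TFB Pool.Agent.H62P

universe u

set_option linter.unusedSectionVars false
set_option linter.unusedVariables false

variable {V : Type u} [DecidableEq V]

/-- a path between two consecutive vertices of a cycle -/
theorem ins_path_fam {G : SimpleGraph V} {L : List (List V)} (hL : Fam G L) {X : List V}
    {a b w : V} (hX : Seg G X a b) (hXn : X.Nodup) (hXL : ∀ x ∈ X, x ∉ L.flatten)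
    (hw : w ∈ L.flatten) (h1 : G.Adj (prv L w) a) (h2 : G.Adj b w) :
    ∃ L2, Fam G L2 ∧ L2.length ≤ L.length ∧ ∀ x, x ∈ L2.flatten ↔ x ∈ L.flatten ∨ x ∈ X := by
  obtain ⟨P, L', hP, h3, hperm, hL', hlen⟩ := place1 hL hw
  have hnod : (P ++ L'.flatten).Nodup := hperm.nodup_iff.1 hL.nod
  have hPX : ∀ x ∈ X, x ∉ P := fun x hx h => hXL x hx (hperm.mem_iff.2 (by simp [h]))
  have hLX : ∀ x ∈ X, x ∉ L'.flatten := fun x hx h => hXL x hx (hperm.mem_iff.2 (by simp [h]))
  have hseg := hP.seg hL (fun x hx => hperm.mem_iff.2 (by simp [hx]))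
  have hn : (P ++ X).Nodup := by
    rw [List.nodup_append]
    refine ⟨(List.nodup_append.1 hnod).1, hXn, ?_⟩
    rintro x hx y hy rfl
    exact hPX _ hy hx
  have hcyc : CycL G (P ++ X) := by
    have h := hseg.append hX h1
    refine ⟨hn, ?_, h.ch, ?_⟩
    · rw [List.length_append]; omega
    · intro x hx y hy
      rw [h.lt] at hx
      rw [h.hd] at hy
      simp only [Option.mem_def, Option.some.injEq] at hx hy
      rw [← hx, ← hy]
      exact h2
  refine ⟨(P ++ X) :: L', ⟨?_, ?_⟩, ?_, ?_⟩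
  · intro c hc
    rcases List.mem_cons.1 hc with rfl | hc
    · exact hcyc
    · exact hL' c hc
  · rw [List.flatten_cons, List.nodup_append]
    refine ⟨hcyc.1, (List.nodup_append.1 hnod).2.1, ?_⟩
    rintro x hx y hy rfl
    rcases List.mem_append.1 hx with hx | hx
    · exact (List.nodup_append.1 hnod).2.2 x hx x hy rfl
    · exact hLX _ hx hy
  · simp; omega
  · intro x
    rw [List.flatten_cons, List.mem_append, List.mem_append, hperm.mem_iff, List.mem_append]
    generalize (x ∈ L'.flatten) = e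
    tauto

/-- absorption of a path through two adjacent predecessors -/
theorem cross_path_fam {G : SimpleGraph V} {L : List (List V)} (hL : Fam G L) {X : List V}
    {a b w1 w2 : V} (hX : Seg G X a b) (hXn : X.Nodup) (hXL : ∀ x ∈ X, x ∉ L.flatten)
    (hw1 : w1 ∈ L.flatten) (hw2 : w2 ∈ L.flatten) (hne : w1 ≠ w2)
    (h1 : G.Adj a w1) (h2 : G.Adj b w2) (h : G.Adj (prv L w1) (prv L w2)) :
    ∃ L2, Fam G L2 ∧ L2.length ≤ L.length ∧ ∀ x, x ∈ L2.flatten ↔ x ∈ L.flatten ∨ x ∈ X := by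
  obtain ⟨P, R, L', hperm, hL', hlen, h3, hPR⟩ := place2 hL hw1 hw2 hne
  have hnod : (P ++ (R ++ L'.flatten)).Nodup := hperm.nodup_iff.1 hL.nod
  have hPm : ∀ x ∈ P, x ∈ L.flatten := fun x hx => hperm.mem_iff.2 (by simp [hx])
  have hRm : ∀ x ∈ R, x ∈ L.flatten := fun x hx => hperm.mem_iff.2 (by simp [hx])
  have hLm : ∀ x ∈ L'.flatten, x ∈ L.flatten := fun x hx => hperm.mem_iff.2 (by simp [hx])
  have hn : (P.reverse ++ X ++ R).Nodup := by
    have h5 : (P ++ R).Nodup := by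
      rw [← List.append_assoc] at hnod
      exact (List.nodup_append.1 hnod).1
    have h6 : (P.reverse ++ X ++ R).Perm ((P ++ R) ++ X) := by
      refine ((List.reverse_perm P).append_right X |>.append_right R).trans ?_
      rw [List.append_assoc, List.append_assoc]
      exact List.Perm.append_left _ List.perm_append_comm
    rw [h6.nodup_iff, List.nodup_append]
    refine ⟨h5, hXn, ?_⟩
    rintro x hx y hy rfl
    rcases List.mem_append.1 hx with hx | hx
    · exact hXL _ hy (hPm _ hx)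
    · exact hXL _ hy (hRm _ hx)
  have hcyc : CycL G (P.reverse ++ X ++ R) := by
    rcases hPR with ⟨hP, hR⟩ | ⟨hP, hR⟩
    · exact cyc3 (hP.seg hL hPm).rev hX (hR.seg hL hRm) h1.symm h2 h hn
    · exact cyc3 (hP.seg hL hPm).rev hX (hR.seg hL hRm) h1.symm h2 h.symm hn
  refine ⟨(P.reverse ++ X ++ R) :: L', ⟨?_, ?_⟩, ?_, ?_⟩
  · intro c hc
    rcases List.mem_cons.1 hc with rfl | hc
    · exact hcyc
    · exact hL' c hc
  · rw [List.flatten_cons, List.nodup_append]
    rw [← List.append_assoc] at hnod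
    refine ⟨hcyc.1, (List.nodup_append.1 hnod).2.1, ?_⟩
    rintro x hx y hy rfl
    simp only [List.mem_append, List.mem_reverse] at hx
    rcases hx with (hx | hx) | hx
    · exact (List.nodup_append.1 hnod).2.2 x (by simp [hx]) x hy rfl
    · exact hXL _ hx (hLm _ hy)
    · exact (List.nodup_append.1 hnod).2.2 x (by simp [hx]) x hy rfl
  · simp; omega
  · intro x
    rw [List.flatten_cons, List.mem_append, List.mem_append, List.mem_append, hperm.mem_iff,
      List.mem_append, List.mem_append, List.mem_reverse]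
    generalize (x ∈ L'.flatten) = e
    tauto

/-- a path inside a connected set -/
theorem conn_path {G : SimpleGraph V} {K : Finset V} (hK : ∀ a ∈ K, ∀ b ∈ K, Reach G K a b)
    {a b : V} (ha : a ∈ K) (hb : b ∈ K) :
    ∃ X : List V, Seg G X a b ∧ X.Nodup ∧ ∀ x ∈ X, x ∈ K := by
  obtain ⟨q, h1, h2, h3, h4, h5⟩ := (hK a ha b hb).path ha
  exact ⟨q, ⟨h2, h3, h4⟩, h1, h5⟩

/-- LEMMA AR*: a connected set `K` of uncovered vertices of which nothing can be absorbed. -/
theorem absorb_conn {G : SimpleGraph V} [DecidableRel G.Adj] {U W : Finset V} (hW : W ⊆ U)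
    {L : List (List V)} (hL : Fam G L) (hLU : ∀ x ∈ L.flatten, x ∈ U)
    {K : Finset V} (hKU : K ⊆ U \ W) (hKL : ∀ x ∈ K, x ∉ L.flatten)
    (hKconn : ∀ a ∈ K, ∀ b ∈ K, Reach G K a b)
    (hKc : ∀ x ∈ U \ W, x ∉ L.flatten → ∀ y ∈ K, G.Adj y x → x ∈ K)
    (hmin : ∀ X : List V, X ≠ [] → (∀ x ∈ X, x ∈ K) → ¬ ∃ L2, Fam G L2 ∧ L2.length ≤ L.length ∧
      ∀ x, x ∈ L2.flatten ↔ x ∈ L.flatten ∨ x ∈ X)
    {J : Finset V} (hJK : J ⊆ K) (hJ : G.IsIndepSet (J : Set V)) {v : V} (hv : v ∈ J)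
    (hC : ∀ I : Finset V, I ⊆ U \ W → G.IsIndepSet (I : Set V) → v ∈ I →
      I.card + 1 + W.card ≤ dU G U v) :
    J.card + 1 + ((U \ K).filter (fun w => (∃ x ∈ K, G.Adj x w) ∧ ¬ G.Adj v w)).card ≤
      dU G K v := by
  classical
  set N : Finset V := L.flatten.toFinset.filter (fun w => ∃ x ∈ K, G.Adj x w) with hN
  have hNm : ∀ w, w ∈ N ↔ w ∈ L.flatten ∧ ∃ x ∈ K, G.Adj x w := by
    intro w; rw [hN, Finset.mem_filter, List.mem_toFinset]
  set P : Finset V := (N.image (prv L)) \ W with hP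
  have hPm : ∀ p ∈ P, ∃ w ∈ L.flatten, (∃ x ∈ K, G.Adj x w) ∧ prv L w = p := by
    intro p hp
    obtain ⟨w, hw, rfl⟩ := Finset.mem_image.1 (Finset.mem_sdiff.1 hp).1
    exact ⟨w, ((hNm w).1 hw).1, ((hNm w).1 hw).2, rfl⟩
  have hPL : ∀ p ∈ P, p ∈ L.flatten := by
    intro p hp
    obtain ⟨w, hw, _, rfl⟩ := hPm p hp
    exact prv_mem hL hw
  have hdis : Disjoint J P := by
    rw [Finset.disjoint_left]
    intro x hx hx2
    exact hKL x (hJK hx) (hPL x hx2)
  have hsub : J ∪ P ⊆ U \ W := by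
    intro x hx
    rcases Finset.mem_union.1 hx with hx | hx
    · exact hKU (hJK hx)
    · exact Finset.mem_sdiff.2 ⟨hLU x (hPL x hx), (Finset.mem_sdiff.1 hx).2⟩
  have hne : ∀ {X : List V} {a b : V}, Seg G X a b → X ≠ [] := by
    intro X a b h h0
    have := h.pos
    rw [h0] at this
    simp at this
  have hJP : ∀ j ∈ J, ∀ p ∈ P, ¬ G.Adj j p := by
    intro j hj p hp hadj
    obtain ⟨w, hw, ⟨x, hx, hxw⟩, rfl⟩ := hPm p hp
    obtain ⟨X, hX, hXn, hXK⟩ := conn_path hKconn (hJK hj) hx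
    exact hmin X (hne hX) hXK
      (ins_path_fam hL hX hXn (fun y hy => hKL y (hXK y hy)) hw hadj.symm hxw)
  have hind : G.IsIndepSet ((J ∪ P : Finset V) : Set V) := by
    intro a ha b hb hab
    rw [Finset.mem_coe, Finset.mem_union] at ha hb
    rcases ha with ha | ha <;> rcases hb with hb | hb
    · exact hJ ha hb hab
    · exact hJP a ha b hb
    · intro h; exact hJP b hb a ha h.symm
    · obtain ⟨w, hw, ⟨x, hx, hxw⟩, rfl⟩ := hPm a ha
      obtain ⟨w', hw', ⟨x', hx', hxw'⟩, rfl⟩ := hPm b hb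
      intro hadj
      obtain ⟨X, hX, hXn, hXK⟩ := conn_path hKconn hx hx'
      refine hmin X (hne hX) hXK
        (cross_path_fam hL hX hXn (fun y hy => hKL y (hXK y hy)) hw hw' ?_ hxw hxw' hadj)
      rintro rfl
      exact hab rfl
  have key := hC _ hsub hind (Finset.mem_union_left _ hv)
  rw [Finset.card_union_of_disjoint hdis] at key
  have hcI : (N.image (prv L)).card = N.card := by
    refine Finset.card_image_of_injOn ?_
    intro a ha b hb hab
    exact prv_inj hL ((hNm a).1 (Finset.mem_coe.1 ha)).1 ((hNm b).1 (Finset.mem_coe.1 hb)).1 hab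
  have h1 : N.card ≤ P.card + (W.filter (fun x => x ∈ L.flatten)).card := by
    rw [← hcI]
    have : N.image (prv L) ⊆ P ∪ (W.filter (fun x => x ∈ L.flatten)) := by
      intro p hp
      by_cases hpW : p ∈ W
      · refine Finset.mem_union_right _ (Finset.mem_filter.2 ⟨hpW, ?_⟩)
        obtain ⟨w, hw, rfl⟩ := Finset.mem_image.1 hp
        exact prv_mem hL ((hNm w).1 hw).1
      · exact Finset.mem_union_left _ (Finset.mem_sdiff.2 ⟨hp, hpW⟩)
    exact (Finset.card_le_card this).trans (Finset.card_union_le _ _)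
  -- the missed vertices and the neighbours of `v`
  set M : Finset V := (U \ K).filter (fun w => (∃ x ∈ K, G.Adj x w) ∧ ¬ G.Adj v w) with hM
  have hvK : v ∈ K := hJK hv
  have h2 : dU G U v + M.card ≤ dU G K v + (N.card + (W.filter (fun x => x ∉ L.flatten)).card) := by
    have h3 : dU G U v ≤ dU G K v + ((U \ K).filter (fun w => G.Adj v w)).card := by
      unfold dU
      have : U.filter (fun w => G.Adj v w) ⊆
          K.filter (fun w => G.Adj v w) ∪ (U \ K).filter (fun w => G.Adj v w) := by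
        intro w hw
        rw [Finset.mem_filter] at hw
        by_cases hwK : w ∈ K
        · exact Finset.mem_union_left _ (Finset.mem_filter.2 ⟨hwK, hw.2⟩)
        · exact Finset.mem_union_right _ (Finset.mem_filter.2
            ⟨Finset.mem_sdiff.2 ⟨hw.1, hwK⟩, hw.2⟩)
      exact (Finset.card_le_card this).trans (Finset.card_union_le _ _)
    have h4 : ((U \ K).filter (fun w => G.Adj v w)).card + M.card ≤
        N.card + (W.filter (fun x => x ∉ L.flatten)).card := by
      rw [← Finset.card_union_of_disjoint (by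
        rw [Finset.disjoint_left]
        intro x hx hx2
        exact (Finset.mem_filter.1 hx2).2.2 (Finset.mem_filter.1 hx).2)]
      refine le_trans (Finset.card_le_card ?_) (Finset.card_union_le _ _)
      intro w hw
      have hwK : w ∈ U \ K ∧ ∃ x ∈ K, G.Adj x w := by
        rcases Finset.mem_union.1 hw with hw | hw
        · exact ⟨(Finset.mem_filter.1 hw).1, v, hvK, (Finset.mem_filter.1 hw).2⟩
        · exact ⟨(Finset.mem_filter.1 hw).1, (Finset.mem_filter.1 hw).2.1⟩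
      obtain ⟨hwU, x, hx, hxw⟩ := hwK
      rw [Finset.mem_sdiff] at hwU
      by_cases hwL : w ∈ L.flatten
      · exact Finset.mem_union_left _ ((hNm w).2 ⟨hwL, x, hx, hxw⟩)
      · refine Finset.mem_union_right _ (Finset.mem_filter.2 ⟨?_, hwL⟩)
        by_contra hwW
        exact hwU.2 (hKc w (Finset.mem_sdiff.2 ⟨hwU.1, hwW⟩) hwL x hx hxw)
    omega
  have h5 := Finset.card_filter_add_card_filter_not (s := W) (fun x => x ∈ L.flatten)
  omega

/-- run vertices: every vertex of `R` (and of `R'`) has two neighbours in its own set `f v`,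
which no other vertex of `R` (of `R'`) sees. Then `R ∪ R'` is absorbed. -/
theorem absorb_runs {G : SimpleGraph V} [DecidableRel G.Adj] {U W : Finset V} (hW : W ⊆ U)
    {R R' : Finset V} (hR : R ⊆ U \ W) (hR' : R' ⊆ U \ W) {f f' : V → Finset V}
    (hf : ∀ v ∈ R, ∀ z ∈ f v, z ∈ U ∧ z ∉ R ∧ z ∉ R' ∧ G.Adj v z)
    (hf' : ∀ v ∈ R', ∀ z ∈ f' v, z ∈ U ∧ z ∉ R ∧ z ∉ R' ∧ G.Adj v z)
    (h2 : ∀ v ∈ R, 2 ≤ (f v).card) (h2' : ∀ v ∈ R', 2 ≤ (f' v).card)
    (hno : ∀ v ∈ R, ∀ w ∈ R, v ≠ w → ∀ z ∈ f v, ¬ G.Adj w z)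
    (hno' : ∀ v ∈ R', ∀ w ∈ R', v ≠ w → ∀ z ∈ f' v, ¬ G.Adj w z)
    (hC : ∀ I : Finset V, I ⊆ U \ W → G.IsIndepSet (I : Set V) → ∀ v ∈ I, (v ∈ R ∨ v ∈ R') →
      I.card + 1 + W.card ≤ dU G U v) {k : ℕ}
    (h : ∃ L : List (List V), L.length ≤ k ∧ Fam G L ∧ (∀ x ∈ L.flatten, x ∈ U) ∧
      ∀ x ∈ U \ W, x ∉ R → x ∉ R' → x ∈ L.flatten) : CovW G U W k := by
  classical
  -- a family with maximal coverage
  obtain ⟨m, ⟨L, hk, hL, hLU, hLc, hm⟩, hmax⟩ := exists_max_nat
    (fun m => ∃ L : List (List V), L.length ≤ k ∧ Fam G L ∧ (∀ x ∈ L.flatten, x ∈ U) ∧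
      (∀ x ∈ U \ W, x ∉ R → x ∉ R' → x ∈ L.flatten) ∧ L.flatten.length = m) U.card
    (by
      obtain ⟨L, h1, h2, h3, h4⟩ := h
      exact ⟨_, L, h1, h2, h3, h4, rfl⟩)
    (by
      rintro m ⟨L, h1, h2, h3, h4, rfl⟩
      exact nodup_len_le h2.nod h3)
  by_cases hfin : ∀ x ∈ U \ W, x ∈ L.flatten
  · exact ⟨L, hk, hL, hLU, hfin⟩
  exfalso
  push Not at hfin
  obtain ⟨v0, hv0, hv0L⟩ := hfin
  set X0 : Finset V := (U \ W).filter (fun x => x ∉ L.flatten) with hX0
  have hX0m : ∀ x, x ∈ X0 ↔ x ∈ U \ W ∧ x ∉ L.flatten := by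
    intro x; rw [hX0, Finset.mem_filter]
  set K : Finset V := X0.filter (fun x => Reach G X0 v0 x) with hK
  have hKm : ∀ x, x ∈ K ↔ x ∈ X0 ∧ Reach G X0 v0 x := by
    intro x; rw [hK, Finset.mem_filter]
  have hv0K : v0 ∈ K := (hKm v0).2 ⟨(hX0m v0).2 ⟨hv0, hv0L⟩, Relation.ReflTransGen.refl⟩
  have hKc0 : ∀ x ∈ X0, ∀ y ∈ K, G.Adj y x → x ∈ K := by
    intro x hx y hy hyx
    have hy' := (hKm y).1 hy
    exact (hKm x).2 ⟨hx, Relation.ReflTransGen.tail hy'.2 ⟨hy'.1, hx, hyx⟩⟩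
  have hKr : ∀ b, Reach G X0 v0 b → b ∈ X0 → Reach G K v0 b := by
    intro b hb
    induction hb with
    | refl => intro _; exact Relation.ReflTransGen.refl
    | @tail b c hab hbc ih =>
      intro hc
      have hbK : b ∈ K := (hKm b).2 ⟨hbc.1, hab⟩
      exact Relation.ReflTransGen.tail (ih hbc.1) ⟨hbK, hKc0 c hc b hbK hbc.2.2, hbc.2.2⟩
  have hKconn : ∀ a ∈ K, ∀ b ∈ K, Reach G K a b := by
    intro a ha b hb
    have h1 := hKr a ((hKm a).1 ha).2 ((hKm a).1 ha).1
    have h2 := hKr b ((hKm b).1 hb).2 ((hKm b).1 hb).1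
    exact Relation.ReflTransGen.trans h1.symm h2
  have hKU : K ⊆ U \ W := fun x hx => ((hX0m x).1 ((hKm x).1 hx).1).1
  have hKL : ∀ x ∈ K, x ∉ L.flatten := fun x hx => ((hX0m x).1 ((hKm x).1 hx).1).2
  have hXR : ∀ x ∈ X0, x ∈ R ∨ x ∈ R' := by
    intro x hx
    by_contra hcon
    push Not at hcon
    exact ((hX0m x).1 hx).2 (hLc x ((hX0m x).1 hx).1 hcon.1 hcon.2)
  have hmin : ∀ X : List V, X ≠ [] → (∀ x ∈ X, x ∈ K) → ¬ ∃ L2, Fam G L2 ∧
      L2.length ≤ L.length ∧ ∀ x, x ∈ L2.flatten ↔ x ∈ L.flatten ∨ x ∈ X := by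
    rintro X hX hXK ⟨L2, hL2, hlen, hmem⟩
    have hlt : L.flatten.length < L2.flatten.length := by
      obtain ⟨x, hx⟩ := List.exists_mem_of_ne_nil X hX
      rw [← List.toFinset_card_of_nodup hL.nod, ← List.toFinset_card_of_nodup hL2.nod]
      refine Finset.card_lt_card ?_
      rw [Finset.ssubset_iff_of_subset (by
        intro y hy
        rw [List.mem_toFinset] at hy ⊢
        exact (hmem y).2 (Or.inl hy))]
      refine ⟨x, ?_, ?_⟩
      · rw [List.mem_toFinset]
        exact (hmem x).2 (Or.inr hx)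
      · rw [List.mem_toFinset]
        exact hKL x (hXK x hx)
    have h1 := hmax _ ⟨L2, hlen.trans hk, hL2, by
      intro x hx
      rcases (hmem x).1 hx with hx | hx
      · exact hLU x hx
      · exact (Finset.mem_sdiff.1 (hKU (hXK x hx))).1, by
      intro x hx h3 h4
      exact (hmem x).2 (Or.inl (hLc x hx h3 h4)), rfl⟩
    omega
  have hstar : ∀ v ∈ K, 2 + ((U \ K).filter (fun w => (∃ x ∈ K, G.Adj x w) ∧
      ¬ G.Adj v w)).card ≤ dU G K v := by
    intro v hv
    have h1 := absorb_conn hW hL hLU hKU hKL hKconn (fun x hx hxL y hy hyx =>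
      hKc0 x ((hX0m x).2 ⟨hx, hxL⟩) y hy hyx) hmin (J := {v}) (by simpa using hv)
      (by simp) (by simp : v ∈ ({v} : Finset V))
      (fun I hI hind hvI => hC I hI hind v hvI (hXR v ((hKm v).1 hv).1))
    rw [Finset.card_singleton] at h1
    omega
  have hdeg : ∀ v ∈ K, dU G K v + 1 ≤ K.card := by
    intro v hv
    unfold dU
    have : K.filter (fun w => G.Adj v w) ⊆ K.erase v := by
      intro w hw
      rw [Finset.mem_filter] at hw
      exact Finset.mem_erase.2 ⟨fun h => G.loopless.irrefl _ (h ▸ hw.2), hw.1⟩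
    have h1 := Finset.card_le_card this
    rw [Finset.card_erase_of_mem hv] at h1
    have : 1 ≤ K.card := Finset.card_pos.2 ⟨v, hv⟩
    omega
  -- the count for one run
  have hcount : ∀ (S : Finset V) (g : V → Finset V), S ⊆ K →
      (∀ v ∈ S, ∀ z ∈ g v, z ∈ U ∧ z ∉ K ∧ G.Adj v z) → (∀ v ∈ S, 2 ≤ (g v).card) →
      (∀ v ∈ S, ∀ w ∈ S, v ≠ w → ∀ z ∈ g v, ¬ G.Adj w z) → ∀ v ∈ S,
      2 * S.card + 1 ≤ K.card := by
    intro S g hS hg hg2 hgno v hv
    have h1 := hstar v (hS hv)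
    have h2 := hdeg v (hS hv)
    have h3 : 2 * (S.card - 1) ≤ ((U \ K).filter (fun w => (∃ x ∈ K, G.Adj x w) ∧
        ¬ G.Adj v w)).card := by
      have h4 : (S.erase v).biUnion g ⊆ (U \ K).filter (fun w => (∃ x ∈ K, G.Adj x w) ∧
          ¬ G.Adj v w) := by
        intro z hz
        obtain ⟨x, hx, hzx⟩ := Finset.mem_biUnion.1 hz
        have hxS := Finset.mem_of_mem_erase hx
        have h5 := hg x hxS z hzx
        exact Finset.mem_filter.2 ⟨Finset.mem_sdiff.2 ⟨h5.1, h5.2.1⟩, ⟨x, hS hxS, h5.2.2⟩,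
          hgno x hxS v hv (Finset.ne_of_mem_erase hx) z hzx⟩
      have h6 : ((S.erase v).biUnion g).card = ∑ x ∈ S.erase v, (g x).card := by
        refine Finset.card_biUnion ?_
        intro x hx y hy hxy
        show _root_.Disjoint (g x) (g y)
        rw [Finset.disjoint_left]
        intro z hz hz2
        have hxS := Finset.mem_of_mem_erase hx
        have hyS := Finset.mem_of_mem_erase hy
        exact hgno x hxS y hyS hxy z hz (hg y hyS z hz2).2.2
      have h7 : 2 * (S.erase v).card ≤ ∑ x ∈ S.erase v, (g x).card := by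
        rw [mul_comm, ← smul_eq_mul]
        exact Finset.card_nsmul_le_sum _ _ _ (fun x hx => hg2 x (Finset.mem_of_mem_erase hx))
      have h8 := Finset.card_le_card h4
      rw [Finset.card_erase_of_mem hv] at h7
      omega
    have : 1 ≤ S.card := Finset.card_pos.2 ⟨v, hv⟩
    omega
  have hz : ∀ z, z ∉ R → z ∉ R' → z ∉ K := by
    intro z h1 h2 h3
    rcases hXR z ((hKm z).1 h3).1 with h | h
    · exact h1 h
    · exact h2 h
  have hA := hcount (K ∩ R) f Finset.inter_subset_left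
    (fun v hv z hzv => by
      have h1 := hf v (Finset.mem_inter.1 hv).2 z hzv
      exact ⟨h1.1, hz z h1.2.1 h1.2.2.1, h1.2.2.2⟩)
    (fun v hv => h2 v (Finset.mem_inter.1 hv).2)
    (fun v hv w hw hvw z hzv => hno v (Finset.mem_inter.1 hv).2 w (Finset.mem_inter.1 hw).2 hvw z hzv)
  have hmem' : ∀ v ∈ K \ R, v ∈ R' := by
    intro v hv
    rw [Finset.mem_sdiff] at hv
    rcases hXR v ((hKm v).1 hv.1).1 with h | h
    · exact absurd h hv.2
    · exact h
  have hB := hcount (K \ R) f' Finset.sdiff_subset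
    (fun v hv z hzv => by
      have h1 := hf' v (hmem' v hv) z hzv
      exact ⟨h1.1, hz z h1.2.1 h1.2.2.1, h1.2.2.2⟩)
    (fun v hv => h2' v (hmem' v hv))
    (fun v hv w hw hvw z hzv => hno' v (hmem' v hv) w (hmem' w hw) hvw z hzv)
  have hcard : (K ∩ R).card + (K \ R).card = K.card := by
    rw [Finset.card_inter_add_card_sdiff]
  rcases Finset.eq_empty_or_nonempty (K ∩ R) with hA0 | ⟨a, ha⟩
  · rcases Finset.eq_empty_or_nonempty (K \ R) with hB0 | ⟨b, hb⟩
    · rw [hA0, hB0] at hcard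
      simp at hcard
      rw [eq_comm, Finset.card_eq_zero] at hcard
      rw [hcard] at hv0K
      simp at hv0K
    · have h1 := hB b hb
      rw [hA0] at hcard
      simp at hcard
      omega
  · have h1 := hA a ha
    rcases Finset.eq_empty_or_nonempty (K \ R) with hB0 | ⟨b, hb⟩
    · rw [hB0] at hcard
      simp at hcard
      omega
    · have h3 := hB b hb
      omega

end Pool.Agent.H85P
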