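import Pool.Agent.H62P.Frame

/-! The virtual hub: one new optional vertex `y0` joined to the set `N`. -/

namespace Pool.Agent.H85P

open List Pool.Agent.TF82 Pool.Agent.TFC Pool.Agent.TFB Pool.Agent.H62P

universe u

set_option linter.unusedSectionVars false
set_option linter.unusedVariables false

variable {V : Type u} [DecidableEq V]

/-- `G` away from `y0`, and `y0` joined to `N` -/
def vG (G : SimpleGraph V) (y0 : V) (N : Finset V) : SimpleGraph V where
  Adj a b := (a ≠ y0 ∧ b ≠ y0 ∧ G.Adj a b) ∨ (a = y0 ∧ b ≠ y0 ∧ b ∈ N) ∨ (b = y0 ∧ a ≠ y0 ∧ a ∈ N)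
  symm := ⟨by
    intro a b h
    rcases h with ⟨h1, h2, h3⟩ | ⟨h1, h2, h3⟩ | ⟨h1, h2, h3⟩
    · exact Or.inl ⟨h2, h1, h3.symm⟩
    · exact Or.inr (Or.inr ⟨h1, h2, h3⟩)
    · exact Or.inr (Or.inl ⟨h1, h2, h3⟩)⟩
  loopless := ⟨by
    intro a h
    rcases h with ⟨_, _, h3⟩ | ⟨h1, h2, _⟩ | ⟨h1, h2, _⟩
    · exact G.loopless.irrefl _ h3
    · exact h2 h1
    · exact h2 h1⟩

instance (G : SimpleGraph V) [DecidableRel G.Adj] (y0 : V) (N : Finset V) :
    DecidableRel (vG G y0 N).Adj := fun a b => by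
  unfold vG
  infer_instance

theorem vG_ne {G : SimpleGraph V} {y0 : V} {N : Finset V} {a b : V} (ha : a ≠ y0) (hb : b ≠ y0) :
    (vG G y0 N).Adj a b ↔ G.Adj a b := by
  unfold vG
  simp [ha, hb]

theorem vG_hub {G : SimpleGraph V} {y0 : V} {N : Finset V} {a : V} (ha : a ≠ y0) :
    (vG G y0 N).Adj y0 a ↔ a ∈ N := by
  unfold vG
  simp [ha]

theorem vG_hub' {G : SimpleGraph V} {y0 : V} {N : Finset V} {a : V} (ha : a ≠ y0) :
    (vG G y0 N).Adj a y0 ↔ a ∈ N := by
  unfold vG
  simp [ha]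

theorem vG_chain {G : SimpleGraph V} {y0 : V} {N : Finset V} : ∀ {l : List V}, y0 ∉ l →
    l.IsChain (vG G y0 N).Adj → l.IsChain G.Adj
  | [], _, _ => by simp
  | [a], _, _ => by simp
  | a :: b :: l, hy, h => by
    rw [List.isChain_cons_cons] at h ⊢
    simp only [List.mem_cons, not_or] at hy
    refine ⟨(vG_ne (Ne.symm hy.1) (Ne.symm hy.2.1)).1 h.1, vG_chain ?_ h.2⟩
    simp only [List.mem_cons, not_or]
    exact ⟨hy.2.1, hy.2.2⟩

theorem vG_cyc {G : SimpleGraph V} {y0 : V} {N : Finset V} {c : List V} (hy : y0 ∉ c)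
    (h : CycL (vG G y0 N) c) : CycL G c := by
  obtain ⟨h1, h2, h3, h4⟩ := h
  refine ⟨h1, h2, vG_chain hy h3, ?_⟩
  intro x hx y hy'
  have hxc : x ∈ c := List.mem_of_mem_getLast? hx
  have hyc : y ∈ c := List.mem_of_mem_head? hy'
  exact (vG_ne (by rintro rfl; exact hy hxc) (by rintro rfl; exact hy hyc)).1 (h4 x hx y hy')

theorem dU_vG {G : SimpleGraph V} [DecidableRel G.Adj] {y0 : V} {N Z : Finset V} (hy : y0 ∉ Z)
    {v : V} (hv : v ∈ Z) :
    dU (vG G y0 N) (insert y0 Z) v = dU G Z v + if v ∈ N then 1 else 0 := by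
  have hvy : v ≠ y0 := fun h => hy (h ▸ hv)
  unfold dU
  rw [Finset.filter_insert]
  have h1 : Z.filter (fun w => (vG G y0 N).Adj v w) = Z.filter (fun w => G.Adj v w) := by
    refine Finset.filter_congr ?_
    intro w hw
    exact vG_ne hvy (fun h => hy (h ▸ hw))
  by_cases hN : v ∈ N
  · rw [if_pos ((vG_hub' hvy).2 hN), if_pos hN, Finset.card_insert_of_notMem, h1]
    intro h
    exact hy (Finset.mem_filter.1 h).1
  · rw [if_neg (fun h => hN ((vG_hub' hvy).1 h)), if_neg hN, h1, Nat.add_zero]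

theorem ind_vG {G : SimpleGraph V} {y0 : V} {N I : Finset V} (hy : y0 ∉ I) :
    (vG G y0 N).IsIndepSet (I : Set V) ↔ G.IsIndepSet (I : Set V) := by
  constructor
  · intro h a ha b hb hab hadj
    exact h ha hb hab ((vG_ne (by rintro rfl; exact hy ha) (by rintro rfl; exact hy hb)).2 hadj)
  · intro h a ha b hb hab hadj
    exact h ha hb hab ((vG_ne (by rintro rfl; exact hy ha) (by rintro rfl; exact hy hb)).1 hadj)

theorem sdiff_ins {y0 : V} {Z S : Finset V} (hy : y0 ∉ Z) :
    (insert y0 Z) \ (insert y0 S) = Z \ S := by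
  ext x
  simp only [Finset.mem_sdiff, Finset.mem_insert, not_or]
  constructor
  · rintro ⟨h1 | h1, h2, h3⟩
    · exact absurd h1 h2
    · exact ⟨h1, h3⟩
  · rintro ⟨h1, h2⟩
    exact ⟨Or.inr h1, fun h => hy (h ▸ h1), h2⟩

theorem CW_vG {G : SimpleGraph V} [DecidableRel G.Adj] {y0 : V} {N Z S : Finset V} (hS : S ⊆ Z)
    (hy : y0 ∉ Z)
    (hC : ∀ I : Finset V, I ⊆ Z \ S → G.IsIndepSet (I : Set V) → ∀ v ∈ I,
      I.card + 1 + S.card + 1 ≤ dU G Z v + if v ∈ N then 1 else 0) :
    CW (vG G y0 N) (insert y0 Z) (insert y0 S) := by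
  intro I hI hind v hv
  rw [sdiff_ins hy] at hI
  have hyI : y0 ∉ I := fun h => hy (Finset.mem_sdiff.1 (hI h)).1
  have h1 := hC I hI ((ind_vG hyI).1 hind) v hv
  rw [dU_vG hy (Finset.mem_sdiff.1 (hI hv)).1,
    Finset.card_insert_of_notMem (fun h => hy (hS h))]
  omega

/-- VIRTUAL HUB: either `k + 1` independent vertices of `Z` for which membership in `N` is paid,
or a path `Q` with both ends in `N` whose removal saves two cycles. -/
theorem virtual_hub {G : SimpleGraph V} [DecidableRel G.Adj] {y0 : V} {N Z S : Finset V}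
    (hS : S ⊆ Z) (hy : y0 ∉ Z)
    (hC : ∀ I : Finset V, I ⊆ Z \ S → G.IsIndepSet (I : Set V) → ∀ v ∈ I,
      I.card + 1 + S.card + 1 ≤ dU G Z v + if v ∈ N then 1 else 0)
    (IH : CW (vG G y0 N) (insert y0 Z) (insert y0 S) →
      PW (vG G y0 N) (insert y0 Z) (insert y0 S))
    {k : ℕ} (hk : ¬ CovW G Z S k) :
    (∃ I : Finset V, I ⊆ Z \ S ∧ G.IsIndepSet (I : Set V) ∧ I.card = k + 1 ∧
      ∑ v ∈ I, (dU G Z v + if v ∈ N then 1 else 0) ≤ Z.card) ∨
    (∃ (Q : List V) (a b : V), Q.Nodup ∧ Seg G Q a b ∧ a ∈ N ∧ b ∈ N ∧ a ≠ b ∧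
      (∀ x ∈ Q, x ∈ Z) ∧
      ∃ k', k = k' + 1 ∧ CovW G (Z \ Q.toFinset) (S \ Q.toFinset) k') := by
  have hPW := IH (CW_vG hS hy hC)
  by_cases hcov : CovW (vG G y0 N) (insert y0 Z) (insert y0 S) k
  · obtain ⟨L, hlen, hL, hLU, hLc⟩ := hcov
    rw [sdiff_ins hy] at hLc
    by_cases hyL : y0 ∈ L.flatten
    · right
      obtain ⟨c, hc, hyc⟩ := List.mem_flatten.1 hyL
      obtain ⟨L1, L2, rfl⟩ := List.append_of_mem hc
      obtain ⟨Q, hQ⟩ := rot_cons hyc
      have hcyc := (hL.cyc c hc).of_isRotated hQ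
      obtain ⟨hn, hl3, hch, hcl⟩ := hcyc
      have hyQ : y0 ∉ Q := (List.nodup_cons.1 hn).1
      have hQn : Q.Nodup := (List.nodup_cons.1 hn).2
      have hmem : ∀ x, x ∈ Q → x ∈ c := fun x hx => hQ.perm.mem_iff.2 (List.mem_cons_of_mem _ hx)
      have hnod := hL.nod
      have hper : (L1 ++ c :: L2).flatten ~ c ++ (L1 ++ L2).flatten := by
        simp only [List.flatten_append, List.flatten_cons]
        rw [← List.append_assoc, ← List.append_assoc]
        exact List.Perm.append_right _ List.perm_append_comm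
      have hnod2 := hper.nodup_iff.1 hnod
      rw [List.nodup_append] at hnod2
      have hyr : y0 ∉ (L1 ++ L2).flatten := fun h => hnod2.2.2 y0 hyc y0 h rfl
      have hQZ : ∀ x ∈ Q, x ∈ Z := by
        intro x hx
        have h1 := hLU x (hper.mem_iff.2 (List.mem_append_left _ (hmem x hx)))
        rcases Finset.mem_insert.1 h1 with rfl | h1
        · exact absurd hx hyQ
        · exact h1
      rcases Q with _ | ⟨a, Q'⟩
      · simp at hl3
      have ha : a ≠ y0 := fun h => hyQ (by simp [h])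
      have hne : (a :: Q') ≠ [] := by simp
      refine ⟨a :: Q', a, (a :: Q').getLast hne, hQn, ⟨vG_chain hyQ (List.isChain_cons_cons.1 hch).2,
        by simp, List.getLast?_eq_getLast_of_ne_nil hne⟩, ?_, ?_, ?_, hQZ, ?_⟩
      · exact (vG_hub ha).1 (List.isChain_cons_cons.1 hch).1
      · have h1 : (a :: Q').getLast hne ∈ a :: Q' := List.getLast_mem hne
        have h2 : (a :: Q').getLast hne ≠ y0 := fun h => hyQ (h ▸ h1)
        refine (vG_hub' h2).1 (hcl _ ?_ _ (by simp))
        rw [List.getLast?_cons_cons, List.getLast?_eq_getLast_of_ne_nil hne]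
        simp
      · rcases Q' with _ | ⟨b, Q''⟩
        · simp at hl3
        · rw [List.getLast_cons (by simp)]
          intro h
          have h1 := List.getLast_mem (l := b :: Q'') (by simp)
          rw [← h] at h1
          exact (List.nodup_cons.1 hQn).1 h1
      · have hlen' : (L1 ++ L2).length + 1 ≤ k := by
          simp only [List.length_append, List.length_cons] at hlen ⊢
          omega
        refine ⟨k - 1, by omega, L1 ++ L2, by omega, ⟨?_, hnod2.2.1⟩, ?_, ?_⟩
        · intro d hd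
          have hd2 : d ∈ L1 ++ c :: L2 := by
            rcases List.mem_append.1 hd with h | h
            · simp [h]
            · simp [h]
          refine vG_cyc ?_ (hL.cyc d hd2)
          intro h
          exact hyr (List.mem_flatten.2 ⟨d, hd, h⟩)
        · intro x hx
          have h1 := hLU x (hper.mem_iff.2 (List.mem_append_right _ hx))
          rw [Finset.mem_sdiff, List.mem_toFinset]
          refine ⟨?_, fun h => hnod2.2.2 x (hmem x h) x hx rfl⟩
          rcases Finset.mem_insert.1 h1 with rfl | h1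
          · exact absurd hx hyr
          · exact h1
        · intro x hx
          simp only [Finset.mem_sdiff, List.mem_toFinset, not_and, not_not] at hx
          have h1 := hLc x (Finset.mem_sdiff.2 ⟨hx.1.1, fun h => hx.1.2 (hx.2 h)⟩)
          rcases List.mem_append.1 (hper.mem_iff.1 h1) with h | h
          · have h2 := hQ.perm.mem_iff.1 h
            rcases List.mem_cons.1 h2 with rfl | h2
            · exact absurd hx.1.1 hy
            · exact absurd h2 hx.1.2
          · exact h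
    · exfalso
      refine hk ⟨L, hlen, ⟨?_, hL.nod⟩, ?_, hLc⟩
      · intro c hc
        refine vG_cyc ?_ (hL.cyc c hc)
        intro h
        exact hyL (List.mem_flatten.2 ⟨c, hc, h⟩)
      · intro x hx
        rcases Finset.mem_insert.1 (hLU x hx) with rfl | h
        · exact absurd hx hyL
        · exact h
  · left
    obtain ⟨I, hI, hind, hIc, hsum⟩ := hPW k hcov
    rw [sdiff_ins hy] at hI
    have hyI : y0 ∉ I := fun h => hy (Finset.mem_sdiff.1 (hI h)).1
    refine ⟨I, hI, (ind_vG hyI).1 hind, hIc, ?_⟩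
    rw [Finset.card_insert_of_notMem hy] at hsum
    have h1 : ∑ v ∈ I, dU (vG G y0 N) (insert y0 Z) v =
        ∑ v ∈ I, (dU G Z v + if v ∈ N then 1 else 0) := by
      refine Finset.sum_congr rfl ?_
      intro v hv
      exact dU_vG hy (Finset.mem_sdiff.1 (hI hv)).1
    omega

end Pool.Agent.H85P
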